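import Pool.Agent.Lib.MP_fc2a59_co.ALM.Defs

set_option autoImplicit false

/-!
# Growth of the first moment: `(64/25)^m MM m / N1 m -> 0`
-/

namespace Pool.Agent.ALM

open Finset Filter Topology
open scoped Classical

namespace growX

lemma MM_pos (m : ℕ) : 0 < MM m := by
  have : 0 < II (3 * m) := Finset.prod_pos fun i _ => by omega
  unfold MM
  exact_mod_cast this

lemma N1_pos (m : ℕ) : 0 < N1 m := by
  unfold N1
  have : 0 < (2 * m).choose m := Nat.choose_pos (by omega)
  have h : (0 : ℝ) < ((2 * m).choose m : ℝ) := by exact_mod_cast this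
  positivity

lemma MM_succ (m : ℕ) : MM (m + 1) = MM m * ((6 * m + 1) * (6 * m + 3) * (6 * m + 5)) := by
  unfold MM
  have h : 3 * (m + 1) = 3 * m + 1 + 1 + 1 := by ring
  rw [h]
  unfold II
  rw [Finset.prod_range_succ, Finset.prod_range_succ, Finset.prod_range_succ]
  push_cast
  ring

lemma N1_succ (m : ℕ) : N1 (m + 1) * ((m + 1) * (m + 3)) =
    N1 m * (2 * (2 * m + 1) * 9 * ((2 * m + 1) * (2 * m + 2)) ^ 2) := by
  unfold N1
  have h1 : ((2 * (m + 1)).choose (m + 1) : ℝ) * (m + 1) = 2 * (2 * m + 1) * ((2 * m).choose m : ℝ) := by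
    have := Nat.succ_mul_centralBinom_succ m
    unfold Nat.centralBinom at this
    have h2 : (((m + 1) * (2 * (m + 1)).choose (m + 1) : ℕ) : ℝ) =
        ((2 * (2 * m + 1) * (2 * m).choose m : ℕ) : ℝ) := by exact_mod_cast this
    push_cast at h2
    linarith
  have h3 : ((2 * (m + 1)).factorial : ℝ) = (2 * m + 1) * (2 * m + 2) * ((2 * m).factorial : ℝ) := by
    have : 2 * (m + 1) = 2 * m + 1 + 1 := by ring
    rw [this, Nat.factorial_succ, Nat.factorial_succ]
    push_cast
    ring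
  have h4 : ((m + 1 + 2).factorial : ℝ) = (m + 3) * ((m + 2).factorial : ℝ) := by
    have : m + 1 + 2 = m + 2 + 1 := by ring
    rw [this, Nat.factorial_succ]
    push_cast
    ring
  rw [h3, h4]
  have h5 : ((m + 2).factorial : ℝ) ≠ 0 := by positivity
  have h6 : (m : ℝ) + 3 ≠ 0 := by positivity
  field_simp
  rw [pow_succ]
  linear_combination (9 ^ m * 9 : ℝ) * h1

end growX

open growX in
theorem grow : Tendsto (fun m : ℕ => (64 / 25 : ℝ) ^ m * MM m / N1 m) atTop (𝓝 0) := by
  set b : ℕ → ℝ := fun m => (64 / 25 : ℝ) ^ m * MM m / N1 m with hb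
  have hpos : ∀ m, 0 < b m := fun m => by
    have := MM_pos m
    have := N1_pos m
    simp only [hb]
    positivity
  have hstep : ∀ m : ℕ, 80 ≤ m → b (m + 1) ≤ (99 / 100) * b m := by
    intro m hm
    have hm' : (80 : ℝ) ≤ m := by exact_mod_cast hm
    simp only [hb]
    have p1 := MM_pos m
    have p2 := N1_pos m
    have p3 := N1_pos (m + 1)
    rw [MM_succ]
    have e : N1 (m + 1) = N1 m * (2 * (2 * m + 1) * 9 * ((2 * m + 1) * (2 * m + 2)) ^ 2) /
        (((m : ℝ) + 1) * (m + 3)) := by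
      rw [eq_div_iff (by positivity)]
      exact N1_succ m
    rw [e, div_le_iff₀ (by positivity)]
    have h0 : (0 : ℝ) < ((m : ℝ) + 1) * (m + 3) := by positivity
    rw [show (99 / 100 : ℝ) * ((64 / 25) ^ m * MM m / N1 m) *
      (N1 m * (2 * (2 * m + 1) * 9 * ((2 * m + 1) * (2 * m + 2)) ^ 2) / (((m : ℝ) + 1) * (m + 3))) =
      ((64 / 25 : ℝ) ^ m * MM m) * ((99 / 100) *
      (2 * (2 * m + 1) * 9 * ((2 * m + 1) * (2 * m + 2)) ^ 2) / (((m : ℝ) + 1) * (m + 3))) by
        field_simp]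
    rw [pow_succ, show (64 / 25 : ℝ) ^ m * (64 / 25) * (MM m * ((6 * m + 1) * (6 * m + 3) * (6 * m + 5)))
      = ((64 / 25 : ℝ) ^ m * MM m) * ((64 / 25) * ((6 * m + 1) * (6 * m + 3) * (6 * m + 5))) by ring]
    apply mul_le_mul_of_nonneg_left _ (by positivity)
    rw [le_div_iff₀ h0]
    have h1 : (0 : ℝ) ≤ (2 * (m : ℝ) + 1) * (m + 1) := by positivity
    have h2 : (64 / 25 : ℝ) * ((6 * m + 1) * 3 * (6 * m + 5)) * (m + 3) ≤
        (99 / 100) * (2 * (2 * m + 1) * 9 * (2 * m + 1) * 4 * (m + 1)) := by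
      nlinarith [mul_nonneg (sub_nonneg.mpr hm') (sub_nonneg.mpr hm'), sq_nonneg (m : ℝ),
        mul_nonneg (mul_nonneg (sub_nonneg.mpr hm') (sub_nonneg.mpr hm')) (sub_nonneg.mpr hm')]
    nlinarith [mul_le_mul_of_nonneg_left h2 h1]
  have hgeo : ∀ j : ℕ, b (80 + j) ≤ (99 / 100) ^ j * b 80 := by
    intro j
    induction j with
    | zero => simp
    | succ j ih =>
      have := hstep (80 + j) (by omega)
      rw [← add_assoc]
      refine this.trans ?_
      rw [pow_succ]
      nlinarith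
  have h2 : Tendsto (fun j : ℕ => (99 / 100 : ℝ) ^ j * b 80) atTop (𝓝 0) := by
    have := (tendsto_pow_atTop_nhds_zero_of_lt_one (r := (99 / 100 : ℝ)) (by norm_num)
      (by norm_num)).mul_const (b 80)
    simpa using this
  have h3 : Tendsto (fun j : ℕ => b (80 + j)) atTop (𝓝 0) :=
    squeeze_zero (fun j => (hpos _).le) hgeo h2
  have h4 : Tendsto (fun j : ℕ => b (j + 80)) atTop (𝓝 0) := by
    refine h3.congr fun j => ?_
    rw [add_comm]
  exact (tendsto_add_atTop_iff_nat 80).mp h4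

open growX in
/-- the first moment tends to infinity -/
theorem EY_of_grow : Tendsto (fun m : ℕ => N1 m / MM m) atTop atTop := by
  have h1 : Tendsto (fun m : ℕ => (64 / 25 : ℝ) ^ m) atTop atTop :=
    tendsto_pow_atTop_atTop_of_one_lt (by norm_num)
  refine tendsto_atTop_mono' atTop ?_ h1
  filter_upwards [grow.eventually (gt_mem_nhds (show (0 : ℝ) < 1 by norm_num))] with m hm
  have p1 := MM_pos m
  have p2 := N1_pos m
  rw [div_lt_one p2] at hm
  rw [le_div_iff₀ p1]
  exact hm.le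

end Pool.Agent.ALM
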