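import Pool.Agent.Lib.MP_fc2a59_co.ALM.C.Stm
import Pool.Agent.Lib.MP_fc2a59_co.ALM.S.Stm
import Pool.Agent.Lib.MP_fc2a59_co.ALM.A.Stm
import Pool.Agent.Lib.MP_fc2a59_co.ALM.K.Stm

set_option autoImplicit false

/-!
# Project ALM, section M: from pairings to graphs, the final theorem

Pieces: p_gr, p_JT, p_X12, p_P0, p_C0, p_fin.
-/

namespace Pool.Agent.ALM

open Finset Filter Topology
open scoped Classical

/-- SIMPLE PAIRINGS AND CUBIC GRAPHS.

Proof.  If `σ` is a pairing and `Simp σ` then `gr σ` is cubic: the neighbours of `u` are the three different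
vertices `(σ (u, i)).1 ≠ u` (`σ` is an involution, so the relation in `gr` is symmetric).  For a cubic graph
`G` the `σ` with `IsPr σ`, `Simp σ`, `gr σ = G` correspond bijectively to families
`e : ∀ v, Fin 3 ≃ G.neighborSet v`: `e v i = (σ (v, i)).1`, and conversely `σ (v, i) = (u, (e u)⁻¹ v)` with
`u = e v i`.  There are `(3!)^|V|` families (`Fintype.card_equiv`, `Fintype.card_pi`). -/
def S_gr : Prop := ∀ (V : Type) [Fintype V] (Q : SimpleGraph V → Prop),
  ((prs (Pt V)).filter fun σ => Simp σ ∧ Q (gr σ)).card =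
    6 ^ Fintype.card V * ((univ : Finset (SimpleGraph V)).filter fun G => Cubic G ∧ Q G).card

/-- A PARTITION INTO TWO INDUCED TREES GIVES THE DECOMPOSITION.

Proof.  Let `Jp σ A`, `B = Aᶜ`, `G = gr σ`.  `Tre` says: the graph `G[A]` is connected (`nc = 1`; the links of
`Cm` are the edges of `G[A]`, plus trivial ones) and has `mv/2 = |A| - 1` edges (`Simp`: a pair inside `A` is
determined by its edge), so it is a tree (`SimpleGraph.isTree_iff_connected_and_card` or similar); the same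
for `B`.  `|A| = |B| ≥ 1` (`S_Jc`).  If `|A| = 1` then `V = {u, w}` and `(σ (u, i)).1 = w` for all `i`, against
`Simp`.  So `|A|, |B| ≥ 2`, every vertex has a neighbour on its own side, and at most 2 of its three
neighbours are on the other side.  Let `E'` be the set of the edges between `A` and `B`.  HALL
(`Finset.all_card_le_biUnion_card_iff_exists_injective`): for a set `E''` of such edges let `U` be the set of
its endpoints; `2 |E''| ≤ 2 |U|` (double counting of incidences, each edge has two endpoints, each vertex is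
in at most 2 edges), so there is an injective function `f : E' → V` with `f e ∈ e`.  Let
`T₁` = edges of `G[A]` and the `e ∈ E'` with `f e ∈ B`; `T₂` = edges of `G[B]` and the `e ∈ E'` with `f e ∈ A`.
`T₁ ⊔ T₂ = G`, `Disjoint T₁ T₂` clear.  In `T₁` every vertex of `B` has degree `≤ 1` (`f` injective), and its
neighbour is in `A`.  A cycle of `T₁` cannot pass through a vertex of degree 1, so it is contained in the
tree `G[A]`, impossible.  Every vertex of the support of `T₁` is in `A` or adjacent to a vertex of `A`, and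
`G[A]` is connected, so any two are reachable from each other.  `T₂` in the same way. -/
def S_JT : Prop := ∀ (V : Type) [Fintype V] (σ : Pt V → Pt V), IsPr σ → Simp σ → Y σ ≠ 0 →
  TwoTrees (gr σ)

/-- SIMPLE = NO CYCLES OF LENGTH 1 AND 2.

Proof.  `F ∈ cyc V 1` contained in `σ` is a pair `(v, a) -- (v, b)`, a loop.  If `(σ (u, i)).1 = u` then
`σ (u, i) = (u, j)`, `j ≠ i` (no fixed points), and `v = u, b = i, a = j` is such a cycle.  `F ∈ cyc V 2`
contained in `σ`: `σ (v0, b0) = (v1, a1)`, `σ (v1, b1) = (v0, a0)`, so `(σ (v0, a0)).1 = v1 = (σ (v0, b0)).1`,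
`a0 ≠ b0`, not `Simp`.  If there are no loops and `(σ (u, i)).1 = (σ (u, j)).1 = w`, `i ≠ j`, then `w ≠ u`,
`σ (u, i) = (w, k)`, `σ (u, j) = (w, l)`, `k ≠ l`; take `v = ![u, w]`, `b = ![i, l]`, `a = ![j, k]`.  (Values of
`cyF`: `S_cyv`.) -/
def S_X12 : Prop := ∀ (V : Type) [Fintype V] (σ : Pt V → Pt V), IsPr σ →
  (Simp σ ↔ X 1 σ = 0 ∧ X 2 σ = 0)

/-- ASYMPTOTIC STATEMENT FOR PAIRINGS.

Proof.  `S_SSC` with `α = Om`, `w = wn`, `Z m σ = Y σ * MM m/N1 m`, `N m i σ = X i σ`, `θ = lam`, `θ' = mu`,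
`R = Rinf`, `C` from `S_P4`.  `LAW` for `wn`: `S_MM` and `S_CM` with `S_Bn`, `S_Dn`.  `wn m σ * Z m σ = wp m σ`
(`MM m > 0`), `LAW` for `wp`: `S_MM` and `S_CM` with `S_Bp`, `S_Dp`.  Second moment (`S_Y2`):
`∑ w Z^2 = (1/MM) (MM/N1)^2 (2 N1 + N2) = 2 MM/N1 + N2 MM/N1^2 → 0 + Rinf` (`S_EY`, `S_A`).  The conclusion is the
claim: `Z m σ = 0 ↔ Y σ = 0` (`N1 m, MM m > 0`), `S_X12`, and `wn m σ = 1/MM m` on pairings and `0` elsewhere,
`MM m = II (3m)`. -/
def S_P0 : Prop := Tendsto (fun m : ℕ =>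
  (((prs (Pt (Fin (2 * m)))).filter fun σ => Y σ = 0 ∧ Simp σ).card : ℝ) / (II (3 * m) : ℝ)) atTop (𝓝 0)

/-- CYCLICALLY 4-EDGE-CONNECTED PAIRINGS HAVE POSITIVE PROBABILITY.

Proof.  `LAW` for `wn` (`S_MM`, `S_CM`, `S_Bn`, `S_Dn`) with `k = 3`, `x = 0`: the proportion of the pairings with
`X 1 = X 2 = X 3 = 0` tends to `∏ po (lam i) 0 = exp(-1-1-4/3) = p > 0`.  Such pairings are simple (`S_X12`), and
by `S_K` all but a proportion `C/m → 0` of them satisfy `C4`.  Take `c = p/2`. -/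
def S_C0 : Prop := ∃ c : ℝ, 0 < c ∧ ∀ᶠ m : ℕ in atTop,
  c ≤ (((prs (Pt (Fin (2 * m)))).filter fun σ => Simp σ ∧ C4 (gr σ)).card : ℝ) / (II (3 * m) : ℝ)

/-- THE FINAL THEOREM.

Proof.  `n = 2m`.  `S_gr` for `Q = C4` and for `Q = fun G => C4 G ∧ ¬ TwoTrees G`.  By `S_C0` the number `a` of
pairings with `Simp`, `C4` is `≥ c II(3m) > 0`; the number of pairings with `Simp`, `C4`, `¬ TwoTrees` is, by
`S_JT`, at most the number with `Y σ = 0 ∧ Simp σ`, which is `≤ ε c II(3m) ≤ ε a` for large `m` by `S_P0`.  Divide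
by `6^n`. -/
def S_fin : Prop := ∀ ε : ℝ, 0 < ε → ∃ N : ℕ, ∀ n : ℕ, N ≤ n → Even n →
  0 < ((univ : Finset (SimpleGraph (Fin n))).filter fun G => Cubic G ∧ C4 G).card ∧
  (((univ : Finset (SimpleGraph (Fin n))).filter fun G => Cubic G ∧ C4 G ∧ ¬ TwoTrees G).card : ℝ) ≤
    ε * (((univ : Finset (SimpleGraph (Fin n))).filter fun G => Cubic G ∧ C4 G).card : ℝ)

end Pool.Agent.ALM
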