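import Pool.Agent.Lib.MP_fc2a59_co.ALM.M.Stm

set_option autoImplicit false

namespace Pool.Agent.ALM

open Finset Filter Topology
open scoped Classical

theorem p_C0 (h1 : S_MM) (h2 : S_P4) (h3 : S_CM) (h4 : S_Bn) (h5 : S_Dn) (h6 : S_X12) (h7 : S_K) :
    S_C0 := by
  have hlaw : LAW Om wn (fun _ i σ => X i σ) lam :=
    h1 Om wn (fun _ i σ => X i σ) lam h4.1 (fun i hi => (h2.1 i hi).le) (h3 wn lam h4 h5)
  have hl := hlaw 3 (fun _ => 0)
  set p : ℝ := ∏ i : Fin 3, po (lam (i + 1)) 0 with hp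
  have hp0 : 0 < p := by
    apply Finset.prod_pos
    intro i _
    simp only [po, pow_zero, mul_one, Nat.factorial_zero, Nat.cast_one, div_one]
    exact Real.exp_pos _
  obtain ⟨C, hC⟩ := h7
  have hC0 : Tendsto (fun m : ℕ => C / (m : ℝ)) atTop (𝓝 0) :=
    tendsto_const_nhds.div_atTop tendsto_natCast_atTop_atTop
  have e1 := hl.eventually (lt_mem_nhds (show 3 * p / 4 < p by linarith))
  have e2 := hC0.eventually (gt_mem_nhds (show (0 : ℝ) < p / 4 by linarith))
  refine ⟨p / 2, by linarith, ?_⟩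
  filter_upwards [e1, e2, Filter.eventually_ge_atTop 1] with m a1 a2 hm
  have hII : (0 : ℝ) < (II (3 * m) : ℝ) := by
    have : 0 < II (3 * m) := Finset.prod_pos fun i _ => by omega
    exact_mod_cast this
  have hK := hC m hm
  rw [le_div_iff₀ hII]
  -- the mass of the pairings without short cycles
  have hmass : ∑ σ ∈ univ.filter (fun σ : Om m => ∀ i : Fin 3, X ((i : ℕ) + 1) σ = 0), wn m σ =
      (((prs (Pt (Fin (2 * m)))).filter fun σ => Simp σ ∧ X 3 σ = 0).card : ℝ) / (II (3 * m) : ℝ) := by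
    have s1 : ∑ σ ∈ univ.filter (fun σ : Om m => ∀ i : Fin 3, X ((i : ℕ) + 1) σ = 0), wn m σ =
        ∑ σ ∈ (prs (Pt (Fin (2 * m)))).filter (fun σ => Simp σ ∧ X 3 σ = 0), (1 / MM m : ℝ) := by
      rw [Finset.sum_filter, Finset.sum_filter, prs, Finset.sum_filter]
      apply Finset.sum_congr (by ext x; simp)
      intro σ _
      by_cases hσ : IsPr σ
      · have hx := h6 _ σ hσ
        have hiff : (∀ i : Fin 3, X ((i : ℕ) + 1) σ = 0) ↔ (Simp σ ∧ X 3 σ = 0) := by
          rw [hx]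
          constructor
          · intro h
            have t0 := h 0
            have t1 := h 1
            have t2 := h 2
            simp only [Fin.val_zero, Fin.val_one, Fin.val_two] at t0 t1 t2
            exact ⟨⟨t0, t1⟩, t2⟩
          · rintro ⟨⟨t0, t1⟩, t2⟩ i
            fin_cases i
            · simpa using t0
            · simpa using t1
            · simpa using t2
        simp only [hσ, if_true, hiff, wn]
      · simp only [hσ, if_false, wn, ite_self]
    rw [s1, Finset.sum_const, nsmul_eq_mul, MM]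
    ring
  rw [hmass, lt_div_iff₀ hII] at a1
  have hsplit : (((prs (Pt (Fin (2 * m)))).filter fun σ => Simp σ ∧ X 3 σ = 0).card : ℝ) ≤
      (((prs (Pt (Fin (2 * m)))).filter fun σ => Simp σ ∧ C4 (gr σ)).card : ℝ) +
      (((prs (Pt (Fin (2 * m)))).filter fun σ => Simp σ ∧ X 3 σ = 0 ∧ ¬ C4 (gr σ)).card : ℝ) := by
    have : ((prs (Pt (Fin (2 * m)))).filter fun σ => Simp σ ∧ X 3 σ = 0).card ≤
      ((prs (Pt (Fin (2 * m)))).filter fun σ => Simp σ ∧ C4 (gr σ)).card +
      ((prs (Pt (Fin (2 * m)))).filter fun σ => Simp σ ∧ X 3 σ = 0 ∧ ¬ C4 (gr σ)).card := by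
      refine le_trans (Finset.card_le_card ?_) (Finset.card_union_le _ _)
      intro σ hσ
      simp only [Finset.mem_filter, Finset.mem_union] at hσ ⊢
      by_cases h : C4 (gr σ)
      · exact Or.inl ⟨hσ.1, hσ.2.1, h⟩
      · exact Or.inr ⟨hσ.1, hσ.2.1, hσ.2.2, h⟩
    exact_mod_cast this
  have hK2 : C / (m : ℝ) * (II (3 * m) : ℝ) ≤ p / 4 * (II (3 * m) : ℝ) :=
    mul_le_mul_of_nonneg_right a2.le hII.le
  nlinarith [hK, hsplit, hK2, a1]

end Pool.Agent.ALM
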