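import Pool.Agent.Lib.MP_fc2a59_co.ALM.M.Stm
import Pool.Agent.Lib.MP_fc2a59_co.Jg.Fin

set_option autoImplicit false

namespace Pool.Agent.ALM

open Finset
open scoped Classical

namespace JTX

variable {V : Type}

lemma adj_iff (σ : Pt V → Pt V) (hσ : IsPr σ) (hs : Simp σ) (u v : V) :
    (gr σ).Adj u v ↔ ∃ i : Fin 3, (σ (u, i)).1 = v := by
  unfold gr
  rw [SimpleGraph.fromRel_adj]
  constructor
  · rintro ⟨_, h | ⟨j, hj⟩⟩
    · exact h
    · refine ⟨(σ (v, j)).2, ?_⟩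
      have h1 : (u, (σ (v, j)).2) = σ (v, j) := by rw [← hj]
      rw [h1, (hσ (v, j)).1]
  · rintro ⟨i, hi⟩
    refine ⟨?_, Or.inl ⟨i, hi⟩⟩
    intro h
    exact hs.1 u i (by rw [hi, h])

lemma degree_eq [Fintype V] (σ : Pt V → Pt V) (hσ : IsPr σ) (hs : Simp σ) (v : V) : (gr σ).degree v = 3 := by
  rw [← SimpleGraph.card_neighborFinset_eq_degree]
  have : (gr σ).neighborFinset v = (univ : Finset (Fin 3)).image fun i => (σ (v, i)).1 := by
    ext w
    rw [SimpleGraph.mem_neighborFinset, adj_iff σ hσ hs, Finset.mem_image]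
    simp
  rw [this, Finset.card_image_of_injective _ (fun i j h => hs.2 v i j h)]
  simp

lemma rs_pos (σ : Pt V → Pt V) (B : Finset V) (x : {x : Pt V // x.1 ∈ B}) (h : (σ x.1).1 ∈ B) :
    rs (fun x : Pt V => x.1 ∈ B) σ x = ⟨σ x.1, h⟩ := by
  unfold rs
  rw [dif_pos h]

lemma rs_neg (σ : Pt V → Pt V) (B : Finset V) (x : {x : Pt V // x.1 ∈ B}) (h : (σ x.1).1 ∉ B) :
    rs (fun x : Pt V => x.1 ∈ B) σ x = x := by
  unfold rs
  rw [dif_neg h]

lemma tr_of [Fintype V] (σ : Pt V → Pt V) (hσ : IsPr σ) (hs : Simp σ) (B : Finset V)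
    (h : TreeOn Prod.fst σ B) : Pool.Jg.Tr (gr σ).Adj B := by
  obtain ⟨_, hnc, hmv⟩ := h
  unfold nc at hnc
  rw [Nat.card_eq_one_iff_unique] at hnc
  obtain ⟨hsub, ⟨K⟩⟩ := hnc
  refine ⟨?_, ?_, ?_⟩
  · obtain ⟨u, _⟩ := Quot.exists_rep K
    exact ⟨u.1, u.2⟩
  · intro a ha b hb
    have h1 : Quot.mk (lk (bl Prod.fst B) (rs (fun x : Pt V => x.1 ∈ B) σ)) ⟨a, ha⟩ =
        Quot.mk (lk (bl Prod.fst B) (rs (fun x : Pt V => x.1 ∈ B) σ)) ⟨b, hb⟩ := hsub.elim _ _
    have h2 := Quot.eqvGen_exact h1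
    have key : ∀ u v : {v : V // v ∈ B}, Relation.EqvGen
        (lk (bl Prod.fst B) (rs (fun x : Pt V => x.1 ∈ B) σ)) u v →
        Relation.ReflTransGen (Pool.Jg.stepIn (gr σ).Adj B) u.1 v.1 := by
      intro u v huv
      induction huv with
      | rel u v h =>
        obtain ⟨x, hx1, hx2⟩ := h
        by_cases hB : (σ x.1).1 ∈ B
        · rw [rs_pos σ B x hB] at hx2
          apply Relation.ReflTransGen.single
          refine ⟨u.2, v.2, ?_⟩
          rw [adj_iff σ hσ hs]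
          refine ⟨x.1.2, ?_⟩
          have e1 : u.1 = x.1.1 := by rw [← hx1]; rfl
          have e2 : v.1 = (σ x.1).1 := by rw [← hx2]; rfl
          rw [e1, e2]
        · rw [rs_neg σ B x hB] at hx2
          rw [← hx1, ← hx2]
      | refl u => exact Relation.ReflTransGen.refl
      | symm u v _ ih =>
        have hsy : Std.Symm (Pool.Jg.stepIn (gr σ).Adj B) :=
          ⟨fun p q hpq => ⟨hpq.2.1, hpq.1, hpq.2.2.symm⟩⟩
        exact Relation.ReflTransGen.stdSymm.symm _ _ ih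
      | trans u v w _ _ ih1 ih2 => exact ih1.trans ih2
    exact key _ _ h2
  · rw [Fintype.card_coe] at hmv
    rw [← hmv]
    congr 1
    unfold Pool.Jg.pairs mv
    symm
    apply Finset.card_bij (fun (x : {x : Pt V // x.1 ∈ B}) _ => (x.1.1, (σ x.1).1))
    · intro x hx
      have hx' := ((@Finset.mem_filter _ _ (_) _ _).1 hx).2
      have hB : (σ x.1).1 ∈ B := by
        by_contra hB
        exact hx' (rs_neg σ B x hB)
      rw [Finset.mem_filter, Finset.mem_product]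
      refine ⟨⟨x.2, hB⟩, ?_⟩
      rw [adj_iff σ hσ hs]
      exact ⟨x.1.2, rfl⟩
    · intro x _ y _ hxy
      obtain ⟨⟨u, i⟩, hu⟩ := x
      obtain ⟨⟨v, j⟩, hv⟩ := y
      rw [Prod.mk.injEq] at hxy
      obtain ⟨h1, h2⟩ := hxy
      dsimp only at h1
      subst h1
      have := hs.2 u i j h2
      subst this
      rfl
    · rintro ⟨u, v⟩ hp
      rw [Finset.mem_filter, Finset.mem_product] at hp
      obtain ⟨⟨hu, hv⟩, hadj⟩ := hp
      dsimp only at hu hv hadj
      rw [adj_iff σ hσ hs] at hadj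
      obtain ⟨i, hi⟩ := hadj
      have hB : (σ (u, i)).1 ∈ B := by rw [hi]; exact hv
      refine ⟨⟨(u, i), hu⟩, ?_, ?_⟩
      · refine (@Finset.mem_filter _ _ (_) _ _).2 ⟨Finset.mem_univ _, ?_⟩
        rw [rs_pos σ B ⟨(u, i), hu⟩ hB]
        intro h
        exact (hσ (u, i)).2 (congrArg Subtype.val h)
      · rw [hi]

end JTX

theorem p_JT (_h1 : S_Jc) : S_JT := by
  intro V _ σ hσ hs hY
  unfold Y at hY
  obtain ⟨A, hA⟩ := Finset.card_pos.mp (Nat.pos_of_ne_zero hY)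
  rw [Finset.mem_filter] at hA
  obtain ⟨_, h1, h2⟩ := hA
  have t1 := JTX.tr_of σ hσ hs A h1
  have t2 := JTX.tr_of σ hσ hs Aᶜ h2
  have hdeg : ∀ v, (gr σ).degree v = 3 := JTX.degree_eq σ hσ hs
  have hV : 2 < Fintype.card V := by
    obtain ⟨v, _⟩ := t1.ne
    have := (gr σ).degree_lt_card_verts v
    rw [hdeg v] at this
    omega
  have c1 : Pool.Jg.cl univ (fun v => decide (v ∈ A)) true = A := by
    ext v
    simp [Pool.Jg.cl]
  have c2 : Pool.Jg.cl univ (fun v => decide (v ∈ A)) false = Aᶜ := by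
    ext v
    simp [Pool.Jg.cl]
  exact Pool.Jg.split_of_good (gr σ) hdeg hV (fun v => decide (v ∈ A)) (by
    intro b
    cases b
    · rw [c2]; exact t2
    · rw [c1]; exact t1)

end Pool.Agent.ALM
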