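import Pool.Agent.Lib.MP_fc2a59_co.ALM.M.Stm

set_option autoImplicit false

namespace Pool.Agent.ALM

open Finset Filter Topology
open scoped Classical

theorem p_P0 (h1 : S_MM) (h2 : S_SSC) (h3 : S_P4) (h4 : S_CM) (h5 : S_Bn) (h6 : S_Dn) (h7 : S_Bp)
    (h8 : S_Dp) (h9 : S_Y2) (h10 : S_A) (h11 : S_EY) (h12 : S_X12) : S_P0 := by
  have hMM : ∀ m, 0 < MM m := by
    intro m
    have : 0 < II (3 * m) := Finset.prod_pos fun i _ => by omega
    unfold MM
    exact_mod_cast this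
  have hN1 : ∀ m, 0 < N1 m := by
    intro m
    unfold N1
    have : 0 < (2 * m).choose m := Nat.choose_pos (by omega)
    have h : (0 : ℝ) < ((2 * m).choose m : ℝ) := by exact_mod_cast this
    positivity
  obtain ⟨q1, q2, q3, q4, C, q5⟩ := h3
  have hlaw : LAW Om wn (fun _ i σ => X i σ) lam :=
    h1 Om wn (fun _ i σ => X i σ) lam h5.1 (fun i hi => (q1 i hi).le) (h4 wn lam h5 h6)
  have hlaw' : LAW Om wp (fun _ i σ => X i σ) mu :=
    h1 Om wp (fun _ i σ => X i σ) mu h7.1 (fun i hi => q2 i hi) (h4 wp mu h7 h8)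
  have hwZ : (fun m (σ : Om m) => wn m σ * ((Y σ : ℝ) * MM m / N1 m)) = wp := by
    funext m σ
    unfold wn wp
    by_cases hσ : IsPr σ
    · rw [if_pos hσ, if_pos hσ]
      have a := (hMM m).ne'
      have b := (hN1 m).ne'
      field_simp
    · rw [if_neg hσ, if_neg hσ, zero_mul]
  have hsec : ∀ ε : ℝ, 0 < ε → ∀ᶠ m in atTop,
      ∑ σ : Om m, wn m σ * ((Y σ : ℝ) * MM m / N1 m) ^ 2 ≤ Rinf + ε := by
    intro ε hε
    have t1 : Tendsto (fun m : ℕ => 2 * (N1 m / MM m)⁻¹ + N2 m * MM m / N1 m ^ 2) atTop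
        (𝓝 (2 * 0 + Rinf)) :=
      ((tendsto_inv_atTop_zero.comp h11).const_mul 2).add h10
    rw [mul_zero, zero_add] at t1
    filter_upwards [t1.eventually (gt_mem_nhds (show Rinf < Rinf + ε by linarith)),
      Filter.eventually_gt_atTop 0] with m hm hm0
    refine le_trans (le_of_eq ?_) hm.le
    have hy := h9 m hm0
    have a := (hMM m).ne'
    have b := (hN1 m).ne'
    have e : ∑ σ : Om m, wn m σ * ((Y σ : ℝ) * MM m / N1 m) ^ 2 =
        (∑ σ ∈ prs (Pt (Fin (2 * m))), (Y σ : ℝ) ^ 2) * (MM m / N1 m ^ 2) := by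
      rw [prs, Finset.sum_filter, Finset.sum_mul]
      apply Finset.sum_congr (by ext x; simp)
      intro σ _
      unfold wn
      by_cases hσ : IsPr σ
      · rw [if_pos hσ, if_pos hσ]
        field_simp
      · rw [if_neg hσ, if_neg hσ]; ring
    rw [e, hy]
    field_simp
  have hmain := h2 Om wn (fun m σ => (Y σ : ℝ) * MM m / N1 m) (fun _ i σ => X i σ) lam mu Rinf C
    h5.1 (fun m σ => div_nonneg (mul_nonneg (Nat.cast_nonneg _) (hMM m).le) (hN1 m).le)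
    q1 q2 q3 hlaw (by rw [hwZ]; exact hlaw') hsec q4 q5
  unfold S_P0
  refine hmain.congr ?_
  intro m
  have s1 : ∑ σ ∈ univ.filter (fun σ : Om m => (Y σ : ℝ) * MM m / N1 m = 0 ∧ X 1 σ = 0 ∧ X 2 σ = 0),
      wn m σ = ∑ σ ∈ (prs (Pt (Fin (2 * m)))).filter (fun σ => Y σ = 0 ∧ Simp σ), (1 / MM m : ℝ) := by
    rw [Finset.sum_filter, Finset.sum_filter, prs, Finset.sum_filter]
    apply Finset.sum_congr (by ext x; simp)
    intro σ _
    by_cases hσ : IsPr σ
    · have hiff : ((Y σ : ℝ) * MM m / N1 m = 0 ∧ X 1 σ = 0 ∧ X 2 σ = 0) ↔ (Y σ = 0 ∧ Simp σ) := by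
        rw [h12 _ σ hσ]
        have a := (hMM m).ne'
        have b := (hN1 m).ne'
        simp [a, b]
      simp only [hσ, if_true, hiff, wn]
    · simp only [hσ, if_false, wn, ite_self]
  rw [show (∑ σ ∈ univ.filter (fun σ : Om m => (fun m σ => (Y σ : ℝ) * MM m / N1 m) m σ = 0 ∧
      (fun (_ : ℕ) (i : ℕ) (σ : Om m) => X i σ) m 1 σ = 0 ∧
      (fun (_ : ℕ) (i : ℕ) (σ : Om m) => X i σ) m 2 σ = 0), wn m σ) = _ from s1]
  rw [Finset.sum_const, nsmul_eq_mul, MM]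
  ring

end Pool.Agent.ALM
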