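import Pool.Agent.Lib.MP_fc2a59_co.ALM.M.Stm
import Pool.Agent.Lib.MP_fc2a59_co.ALM.M.p_grow

set_option autoImplicit false

/-!
# Exponentially many partitions for almost all pairings
-/

namespace Pool.Agent.ALM

open Finset Filter Topology
open scoped Classical

/-- ASYMPTOTIC STATEMENT FOR PAIRINGS, stronger form: `Y` is at least `(64/25)^m = (8/5)^(2m)` -/
def S_P0e : Prop := Tendsto (fun m : ℕ =>
  (((prs (Pt (Fin (2 * m)))).filter fun σ => (Y σ : ℝ) < (64 / 25) ^ m ∧ Simp σ).card : ℝ) /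
    (II (3 * m) : ℝ)) atTop (𝓝 0)

/-- truncated variable -/
noncomputable def Zt (m : ℕ) (σ : Om m) : ℝ :=
  if (Y σ : ℝ) < (64 / 25) ^ m then 0 else (Y σ : ℝ) * MM m / N1 m

theorem p_P0e (h1 : S_MM) (h2 : S_SSC) (h3 : S_P4) (h4 : S_CM) (h5 : S_Bn) (h6 : S_Dn) (h7 : S_Bp)
    (h8 : S_Dp) (h9 : S_Y2) (h10 : S_A) (h11 : S_EY) (h12 : S_X12) : S_P0e := by
  have hMM := growX.MM_pos
  have hN1 := growX.N1_pos
  obtain ⟨q1, q2, q3, q4, C, q5⟩ := h3
  have hlaw : LAW Om wn (fun _ i σ => X i σ) lam :=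
    h1 Om wn (fun _ i σ => X i σ) lam h5.1 (fun i hi => (q1 i hi).le) (h4 wn lam h5 h6)
  have hlaw' : LAW Om wp (fun _ i σ => X i σ) mu :=
    h1 Om wp (fun _ i σ => X i σ) mu h7.1 (fun i hi => q2 i hi) (h4 wp mu h7 h8)
  have hwZ : ∀ m (σ : Om m), wn m σ * ((Y σ : ℝ) * MM m / N1 m) = wp m σ := by
    intro m σ
    unfold wn wp
    by_cases hσ : IsPr σ
    · rw [if_pos hσ, if_pos hσ]
      have a := (hMM m).ne'
      have b := (hN1 m).ne'
      field_simp
    · rw [if_neg hσ, if_neg hσ, zero_mul]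
  have hw0 : ∀ m (σ : Om m), 0 ≤ wn m σ := h5.1
  have hZt0 : ∀ m (σ : Om m), 0 ≤ Zt m σ := by
    intro m σ
    unfold Zt
    split_ifs
    · exact le_rfl
    · exact div_nonneg (mul_nonneg (Nat.cast_nonneg _) (hMM m).le) (hN1 m).le
  have hZle : ∀ m (σ : Om m), Zt m σ ≤ (Y σ : ℝ) * MM m / N1 m := by
    intro m σ
    unfold Zt
    split_ifs
    · exact div_nonneg (mul_nonneg (Nat.cast_nonneg _) (hMM m).le) (hN1 m).le
    · exact le_rfl
  have hZge : ∀ m (σ : Om m), (Y σ : ℝ) * MM m / N1 m - Zt m σ ≤ (64 / 25 : ℝ) ^ m * MM m / N1 m := by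
    intro m σ
    unfold Zt
    split_ifs with h
    · rw [sub_zero]
      apply div_le_div_of_nonneg_right _ (hN1 m).le
      exact mul_le_mul_of_nonneg_right h.le (hMM m).le
    · rw [sub_self]
      have a := hMM m
      have b := hN1 m
      positivity
  -- total mass
  have htot : Tendsto (fun m => ∑ σ : Om m, wn m σ) atTop (𝓝 1) := by
    have := hlaw 0 (fun i => i.elim0)
    simpa using this
  have herr : Tendsto (fun m => (64 / 25 : ℝ) ^ m * MM m / N1 m * ∑ σ : Om m, wn m σ) atTop (𝓝 0) := by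
    have := grow.mul htot
    simpa using this
  have hlawt : LAW Om (fun m σ => wn m σ * Zt m σ) (fun _ i σ => X i σ) mu := by
    intro k x
    have a := hlaw' k x
    have hdiff : Tendsto (fun m => ∑ σ ∈ univ.filter (fun σ : Om m => ∀ i : Fin k, X ((i : ℕ) + 1) σ = x i),
        wn m σ * ((Y σ : ℝ) * MM m / N1 m - Zt m σ)) atTop (𝓝 0) := by
      refine squeeze_zero (fun m => ?_) (fun m => ?_) herr
      · exact Finset.sum_nonneg fun σ _ => mul_nonneg (hw0 m σ) (sub_nonneg.mpr (hZle m σ))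
      · refine (Finset.sum_le_sum_of_subset_of_nonneg (Finset.subset_univ _)
          (fun σ _ _ => mul_nonneg (hw0 m σ) (sub_nonneg.mpr (hZle m σ)))).trans ?_
        rw [Finset.mul_sum]
        apply Finset.sum_le_sum
        intro σ _
        rw [mul_comm]
        exact mul_le_mul_of_nonneg_right (hZge m σ) (hw0 m σ)
    have := a.sub hdiff
    rw [sub_zero] at this
    refine this.congr fun m => ?_
    rw [← Finset.sum_sub_distrib]
    apply Finset.sum_congr rfl
    intro σ _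
    rw [← hwZ m σ]
    ring
  have hsec : ∀ ε : ℝ, 0 < ε → ∀ᶠ m in atTop,
      ∑ σ : Om m, wn m σ * Zt m σ ^ 2 ≤ Rinf + ε := by
    intro ε hε
    have t1 : Tendsto (fun m : ℕ => 2 * (N1 m / MM m)⁻¹ + N2 m * MM m / N1 m ^ 2) atTop
        (𝓝 (2 * 0 + Rinf)) :=
      ((tendsto_inv_atTop_zero.comp h11).const_mul 2).add h10
    rw [mul_zero, zero_add] at t1
    filter_upwards [t1.eventually (gt_mem_nhds (show Rinf < Rinf + ε by linarith)),
      Filter.eventually_gt_atTop 0] with m hm hm0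
    have hle : ∑ σ : Om m, wn m σ * Zt m σ ^ 2 ≤
        ∑ σ : Om m, wn m σ * ((Y σ : ℝ) * MM m / N1 m) ^ 2 := by
      apply Finset.sum_le_sum
      intro σ _
      apply mul_le_mul_of_nonneg_left _ (hw0 m σ)
      exact pow_le_pow_left₀ (hZt0 m σ) (hZle m σ) 2
    refine hle.trans (le_trans (le_of_eq ?_) hm.le)
    have hy := h9 m hm0
    have a := (hMM m).ne'
    have b := (hN1 m).ne'
    have e : ∑ σ : Om m, wn m σ * ((Y σ : ℝ) * MM m / N1 m) ^ 2 =
        (∑ σ ∈ prs (Pt (Fin (2 * m))), (Y σ : ℝ) ^ 2) * (MM m / N1 m ^ 2) := by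
      rw [prs, Finset.sum_filter, Finset.sum_mul]
      apply Finset.sum_congr (by ext x; simp)
      intro σ _
      unfold wn
      by_cases hσ : IsPr σ
      · rw [if_pos hσ, if_pos hσ]
        field_simp
      · rw [if_neg hσ, if_neg hσ]; ring
    rw [e, hy]
    field_simp
  have hmain := h2 Om wn Zt (fun _ i σ => X i σ) lam mu Rinf C
    h5.1 hZt0 q1 q2 q3 hlaw hlawt hsec q4 q5
  unfold S_P0e
  refine squeeze_zero (fun m => by positivity) (fun m => ?_) hmain
  have s1 : (((prs (Pt (Fin (2 * m)))).filter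
      fun σ => (Y σ : ℝ) < (64 / 25) ^ m ∧ Simp σ).card : ℝ) / (II (3 * m) : ℝ) =
      ∑ σ ∈ (prs (Pt (Fin (2 * m)))).filter (fun σ => (Y σ : ℝ) < (64 / 25) ^ m ∧ Simp σ),
        (1 / MM m : ℝ) := by
    rw [Finset.sum_const, nsmul_eq_mul, MM]
    ring
  rw [s1, Finset.sum_filter, Finset.sum_filter, prs, Finset.sum_filter]
  refine le_of_eq_of_le (Finset.sum_congr (s₂ := (univ : Finset (Om m))) (by ext x; simp)
    (fun _ _ => rfl)) ?_
  apply Finset.sum_le_sum
  intro σ _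
  by_cases hσ : IsPr σ
  · rw [if_pos hσ]
    by_cases hy : (Y σ : ℝ) < (64 / 25) ^ m ∧ Simp σ
    · have hz : Zt m σ = 0 ∧ X 1 σ = 0 ∧ X 2 σ = 0 := by
        refine ⟨?_, (h12 _ σ hσ).1 hy.2⟩
        unfold Zt
        rw [if_pos hy.1]
      rw [if_pos hy, if_pos hz]
      unfold wn
      rw [if_pos hσ]
    · rw [if_neg hy]
      split_ifs
      · exact hw0 m σ
      · exact le_rfl
  · rw [if_neg hσ]
    split_ifs
    · exact hw0 m σ
    · exact le_rfl

end Pool.Agent.ALM
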