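import Pool.Agent.Lib.MP_fc2a59_co.ALM.M.Stm

set_option autoImplicit false

namespace Pool.Agent.ALM

open Finset
open scoped Classical

namespace X12X

theorem sub_iff (h1 : S_cyv) {V : Type} {i : ℕ} (σ : Pt V → Pt V) (hσ : IsPr σ) (v : Fin i → V)
    (a b : Fin i → Fin 3) (hv : Function.Injective v) (hab : ∀ t, a t ≠ b t) :
    Sub (cyF v a b) σ ↔ ∀ t, σ (v t, b t) = (v (nx t), a (nx t)) := by
  obtain ⟨e1, e2, e3⟩ := h1 V i v a b hv hab
  constructor
  · intro h t
    rw [h (v t, b t) ?_, e1]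
    rw [e1]
    intro h2
    have h3 := hv (congrArg Prod.fst h2)
    have h4 := congrArg Prod.snd h2
    rw [h3] at h4
    exact hab t h4
  · intro h x hx
    by_cases hb : ∃ t, x = (v t, b t)
    · obtain ⟨t, rfl⟩ := hb
      rw [h, e1]
    · by_cases ha : ∃ t, x = (v t, a t)
      · obtain ⟨t, rfl⟩ := ha
        obtain ⟨s, rfl⟩ : ∃ s, t = nx s := ⟨(finRotate i).symm t, by
          rw [nx, Equiv.apply_symm_apply]⟩
        rw [e2, ← h s, (hσ _).1]
      · exact absurd (e3 x (fun t ht => hb ⟨t, ht⟩) (fun t ht => ha ⟨t, ht⟩)) hx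

theorem X_zero {V : Type} [Fintype V] (i : ℕ) (σ : Pt V → Pt V) :
    X i σ = 0 ↔ ∀ (v : Fin i → V) (a b : Fin i → Fin 3), Function.Injective v → (∀ t, a t ≠ b t) →
      ¬ Sub (cyF v a b) σ := by
  rw [X, Finset.card_eq_zero, Finset.filter_eq_empty_iff]
  constructor
  · intro h v a b hv hab hs
    exact h (mem_filter.2 ⟨mem_univ _, v, a, b, hv, hab, rfl⟩) hs
  · intro h F hF hs
    obtain ⟨v, a, b, hv, hab, rfl⟩ := (mem_filter.1 hF).2
    exact h v a b hv hab hs

end X12X

theorem p_X12 (h1 : S_cyv) : S_X12 := by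
  intro V _ σ hσ
  rw [X12X.X_zero, X12X.X_zero]
  constructor
  · rintro ⟨h2, h3⟩
    refine ⟨fun v a b hv hab hs => ?_, fun v a b hv hab hs => ?_⟩
    · rw [X12X.sub_iff h1 σ hσ v a b hv hab] at hs
      have h4 := hs 0
      rw [Subsingleton.elim (nx (0 : Fin 1)) 0] at h4
      exact h2 (v 0) (b 0) (by rw [h4])
    · rw [X12X.sub_iff h1 σ hσ v a b hv hab] at hs
      have h4 := hs 0
      have h5 := hs 1
      have n0 : nx (0 : Fin 2) = 1 := rfl
      have n1 : nx (1 : Fin 2) = 0 := rfl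
      rw [n0] at h4
      rw [n1] at h5
      have h6 : σ (v 0, a 0) = (v 1, b 1) := by rw [← h5, (hσ _).1]
      exact hab 0 (h3 (v 0) (a 0) (b 0) (by rw [h4, h6]))
  · rintro ⟨h2, h3⟩
    have h4 : ∀ u i, (σ (u, i)).1 ≠ u := by
      intro u i h
      have h5 : σ (u, i) = (u, (σ (u, i)).2) := Prod.ext h rfl
      have h6 : (σ (u, i)).2 ≠ i := by
        intro h7
        rw [h7] at h5
        exact (hσ _).2 h5
      have hv : Function.Injective (fun _ : Fin 1 => u) := fun _ _ _ => Subsingleton.elim _ _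
      refine h2 (fun _ => u) (fun _ => (σ (u, i)).2) (fun _ => i) hv (fun _ => h6) ?_
      rw [X12X.sub_iff h1 σ hσ _ _ _ hv (fun _ => h6)]
      intro _
      exact h5
    refine ⟨h4, fun u i j hij => ?_⟩
    by_contra hne
    have hw : u ≠ (σ (u, i)).1 := fun h => h4 u i h.symm
    have e1 : σ (u, i) = ((σ (u, i)).1, (σ (u, i)).2) := rfl
    have e2 : σ (u, j) = ((σ (u, i)).1, (σ (u, j)).2) := Prod.ext hij.symm rfl
    have hkl : (σ (u, i)).2 ≠ (σ (u, j)).2 := by
      intro h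
      have h5 : σ (u, i) = σ (u, j) := Prod.ext hij h
      have h6 := congrArg σ h5
      rw [(hσ _).1, (hσ _).1] at h6
      exact hne (congrArg Prod.snd h6)
    have hv : Function.Injective (![u, (σ (u, i)).1] : Fin 2 → V) := by
      intro s t hst
      fin_cases s <;> fin_cases t
      · rfl
      · exact absurd hst hw
      · exact absurd hst.symm hw
      · rfl
    have hab : ∀ t, (![j, (σ (u, i)).2] : Fin 2 → Fin 3) t ≠ (![i, (σ (u, j)).2] : Fin 2 → Fin 3) t := by
      intro t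
      fin_cases t
      · exact fun h => hne h.symm
      · exact hkl
    refine h3 _ _ _ hv hab ?_
    rw [X12X.sub_iff h1 σ hσ _ _ _ hv hab]
    have n0 : nx (0 : Fin 2) = 1 := rfl
    have n1 : nx (1 : Fin 2) = 0 := rfl
    intro t
    fin_cases t
    · exact e1
    · change σ ((σ (u, i)).1, (σ (u, j)).2) = (u, j)
      rw [← e2, (hσ _).1]

end Pool.Agent.ALM
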