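import Pool.Agent.Lib.MP_fc2a59_co.ALM.M.p_JT

set_option autoImplicit false

/-!
# Number of decompositions: at least the number of partitions into two induced trees
-/

namespace Pool.Agent.ALM

open Finset
open scoped Classical

/-- the pair of trees decomposes `G` -/
def Dec {V : Type} (G : SimpleGraph V) (T : SimpleGraph V × SimpleGraph V) : Prop :=
  T.1 ⊔ T.2 = G ∧ Disjoint T.1 T.2 ∧ T.1.IsAcyclic ∧ T.2.IsAcyclic ∧
    (∀ u v, u ∈ T.1.support → v ∈ T.1.support → T.1.Reachable u v) ∧
    (∀ u v, u ∈ T.2.support → v ∈ T.2.support → T.2.Reachable u v)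

namespace cntX

open Pool.Agent.JaegerFinal

theorem split_of_trees' {V : Type} [Fintype V] (G : SimpleGraph V) (h3 : ∀ v, G.degree v = 3)
    (hV : 2 < Fintype.card V) (c : V → Bool)
    (h : ∀ b, (G.induce {v | c v = b}).IsTree) :
    ∃ T : SimpleGraph V × SimpleGraph V, Dec G T ∧
      ∀ v, c v = true ↔ ∃ w w', w ≠ w' ∧ T.1.Adj v w ∧ T.1.Adj v w' := by
  obtain ⟨own, ho, hi⟩ := exists_own G h3 c (exists_mono G h3 hV c h)
  refine ⟨(TT G c own true, TT G c own false), ⟨?_, ?_, TT_acyclic ho hi h true,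
    TT_acyclic ho hi h false, TT_conn ho h true, TT_conn ho h false⟩, ?_⟩
  · ext u v
    rw [SimpleGraph.sup_adj]
    constructor
    · rintro (h1 | h1)
      · exact h1.1
      · exact h1.1
    · intro hadj
      by_cases hc : c u = c v
      · cases hcv : c v
        · exact Or.inr ⟨hadj, Or.inl ⟨by rw [hc, hcv], hcv⟩⟩
        · exact Or.inl ⟨hadj, Or.inl ⟨by rw [hc, hcv], hcv⟩⟩
      · cases hco : c (own s(u, v))
        · exact Or.inl ⟨hadj, Or.inr ⟨hc, by rw [hco]; simp⟩⟩
        · exact Or.inr ⟨hadj, Or.inr ⟨hc, by rw [hco]; simp⟩⟩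
  · rw [disjoint_iff]
    ext u v
    rw [SimpleGraph.inf_adj, SimpleGraph.bot_adj, iff_false]
    rintro ⟨⟨_, h1 | h1⟩, ⟨_, h2 | h2⟩⟩
    · rw [h1.1] at h2
      exact absurd h2.1 (by simp)
    · exact h2.1 (h1.1.trans h1.2.symm)
    · exact h1.1 (h2.1.trans h2.2.symm)
    · cases hco : c (own s(u, v))
      · exact h2.2 hco
      · exact h1.2 hco
  · intro v
    constructor
    · intro hv
      -- at most one neighbour is lost
      have hlost : ((G.neighborFinset v).filter fun w => ¬ (TT G c own true).Adj v w).card ≤ 1 := by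
        rw [Finset.card_le_one]
        intro a ha b hb
        rw [Finset.mem_filter, SimpleGraph.mem_neighborFinset] at ha hb
        have key : ∀ w, G.Adj v w → ¬ (TT G c own true).Adj v w → c v ≠ c w ∧ own s(v, w) = v := by
          intro w hw hn
          have h1 : c v ≠ c w := by
            intro hc
            exact hn ⟨hw, Or.inl ⟨hv, by rw [← hc]; exact hv⟩⟩
          refine ⟨h1, ?_⟩
          have h2 := ho v w hw h1
          rw [Sym2.mem_iff] at h2
          rcases h2 with h2 | h2
          · exact h2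
          · exfalso
            apply hn
            refine ⟨hw, Or.inr ⟨h1, ?_⟩⟩
            rw [h2]
            intro hcw
            exact h1 (hv.trans hcw.symm)
        obtain ⟨a1, a2⟩ := key a ha.1 ha.2
        obtain ⟨b1, b2⟩ := key b hb.1 hb.2
        exact hi v a b ha.1 a1 hb.1 b1 a2 b2
      have hsum := Finset.card_filter_add_card_filter_not (s := G.neighborFinset v)
        (fun w => (TT G c own true).Adj v w)
      rw [SimpleGraph.card_neighborFinset_eq_degree, h3] at hsum
      have h2 : 1 < ((G.neighborFinset v).filter fun w => (TT G c own true).Adj v w).card := by omega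
      rw [Finset.one_lt_card] at h2
      obtain ⟨w, hw, w', hw', hne⟩ := h2
      rw [Finset.mem_filter] at hw hw'
      exact ⟨w, w', hne, hw.2, hw'.2⟩
    · rintro ⟨w, w', hne, h1, h2⟩
      by_contra hv
      have a := TT_out ho hv h1
      have b := TT_out ho hv h2
      exact hne (hi v w w' h1.1 (by rw [a.1]; exact hv) h2.1 (by rw [b.1]; exact hv) a.2 b.2)

end cntX

/-- the number of decompositions is at least the number of partitions into two induced trees -/
theorem p_cnt : ∀ (V : Type) [Fintype V] (σ : Pt V → Pt V), IsPr σ → Simp σ →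
    Y σ ≤ {T : SimpleGraph V × SimpleGraph V | Dec (gr σ) T}.ncard := by
  intro V _ σ hσ hs
  have hdeg : ∀ v, (gr σ).degree v = 3 := JTX.degree_eq σ hσ hs
  have key : ∀ A : Finset V, Jp σ A → ∃ T : SimpleGraph V × SimpleGraph V, Dec (gr σ) T ∧
      ∀ v, v ∈ A ↔ ∃ w w', w ≠ w' ∧ T.1.Adj v w ∧ T.1.Adj v w' := by
    intro A hA
    obtain ⟨h1, h2⟩ := hA
    have t1 := JTX.tr_of σ hσ hs A h1
    have t2 := JTX.tr_of σ hσ hs Aᶜ h2
    have hV : 2 < Fintype.card V := by
      obtain ⟨v, _⟩ := t1.ne
      have := (gr σ).degree_lt_card_verts v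
      rw [hdeg v] at this
      omega
    have c1 : Pool.Jg.cl univ (fun v => decide (v ∈ A)) true = A := by
      ext v
      simp [Pool.Jg.cl]
    have c2 : Pool.Jg.cl univ (fun v => decide (v ∈ A)) false = Aᶜ := by
      ext v
      simp [Pool.Jg.cl]
    have hg : Pool.Jg.Good (gr σ).Adj univ (fun v => decide (v ∈ A)) := by
      intro b
      cases b
      · rw [c2]; exact t2
      · rw [c1]; exact t1
    obtain ⟨T, hT, hT2⟩ := cntX.split_of_trees' (gr σ) hdeg hV (fun v => decide (v ∈ A))
      (fun b => (hg b).isTree (gr σ))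
    refine ⟨T, hT, fun v => ?_⟩
    rw [← hT2 v]
    simp
  choose! f hf hf2 using key
  have hY : Y σ = ((univ : Finset (Finset V)).filter fun A => Jp σ A).card := rfl
  rw [hY]
  have hfin : {T : SimpleGraph V × SimpleGraph V | Dec (gr σ) T}.Finite := Set.toFinite _
  rw [Set.ncard_eq_toFinset_card _ hfin]
  apply Finset.card_le_card_of_injOn f
  · intro A hA
    rw [Finset.mem_coe, Finset.mem_filter] at hA
    rw [Finset.mem_coe, Set.Finite.mem_toFinset]
    exact hf A hA.2
  · intro A hA A' hA' hAA
    rw [Finset.mem_coe, Finset.mem_filter] at hA hA'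
    ext v
    rw [hf2 A hA.2 v, hf2 A' hA'.2 v, hAA]

end Pool.Agent.ALM
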