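import Pool.Agent.Lib.MP_fc2a59_co.ALM.M.p_cnt
import Pool.Agent.Lib.MP_fc2a59_co.ALM.M.p_P0e

set_option autoImplicit false

namespace Pool.Agent.ALM

open Finset Filter Topology
open scoped Classical

/-- Strongest final form: the number of ALL cubic graphs with fewer than `(8/5)^n` decompositions is small
compared with the number of cyclically 4-edge-connected ones. -/
def S_fin3 : Prop := ∀ ε : ℝ, 0 < ε → ∃ N : ℕ, ∀ n : ℕ, N ≤ n → Even n →
  0 < ((univ : Finset (SimpleGraph (Fin n))).filter fun G => Cubic G ∧ C4 G).card ∧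
  (((univ : Finset (SimpleGraph (Fin n))).filter fun G => Cubic G ∧
    ({T : SimpleGraph (Fin n) × SimpleGraph (Fin n) | Dec G T}.ncard : ℝ) < (8 / 5) ^ n).card : ℝ) ≤
    ε * (((univ : Finset (SimpleGraph (Fin n))).filter fun G => Cubic G ∧ C4 G).card : ℝ)

theorem p_fin3 (h1 : S_P0e) (h2 : S_C0) (h3 : S_gr) : S_fin3 := by
  intro ε hε
  obtain ⟨c, hc, hC⟩ := h2
  have hεc : (0 : ℝ) < ε * c := mul_pos hε hc
  have hP := (Tendsto.eventually h1 (gt_mem_nhds hεc))
  obtain ⟨M, hM⟩ := Filter.eventually_atTop.mp (hC.and hP)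
  refine ⟨2 * M, fun n hn he => ?_⟩
  obtain ⟨m, rfl⟩ := he.two_dvd
  obtain ⟨hc1, hp1⟩ := hM m (by omega)
  have hII : (0 : ℝ) < (II (3 * m) : ℝ) := by
    have : 0 < II (3 * m) := Finset.prod_pos fun i _ => by omega
    exact_mod_cast this
  rw [le_div_iff₀ hII] at hc1
  rw [div_lt_iff₀ hII] at hp1
  set Q : SimpleGraph (Fin (2 * m)) → Prop := fun G =>
    ({T : SimpleGraph (Fin (2 * m)) × SimpleGraph (Fin (2 * m)) | Dec G T}.ncard : ℝ) <
      (8 / 5) ^ (2 * m) with hQ
  have g1 := h3 (Fin (2 * m)) C4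
  have g2 := h3 (Fin (2 * m)) Q
  have hsub : ((prs (Pt (Fin (2 * m)))).filter fun σ => Simp σ ∧ Q (gr σ)).card ≤
      ((prs (Pt (Fin (2 * m)))).filter fun σ => (Y σ : ℝ) < (64 / 25) ^ m ∧ Simp σ).card := by
    apply Finset.card_le_card
    intro σ hσ
    simp only [Finset.mem_filter, prs, Finset.mem_univ, true_and] at hσ ⊢
    refine ⟨hσ.1, ?_, hσ.2.1⟩
    have a : (Y σ : ℝ) ≤ ({T : SimpleGraph (Fin (2 * m)) × SimpleGraph (Fin (2 * m)) |
        Dec (gr σ) T}.ncard : ℝ) := by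
      exact_mod_cast p_cnt _ σ hσ.1 hσ.2.1
    have b := hσ.2.2
    simp only [hQ] at b
    have e : ((8 : ℝ) / 5) ^ (2 * m) = (64 / 25) ^ m := by
      rw [pow_mul]
      norm_num
    rw [e] at b
    exact a.trans_lt b
  have g1' : ((((prs (Pt (Fin (2 * m)))).filter fun σ => Simp σ ∧ C4 (gr σ)).card : ℕ) : ℝ) =
      6 ^ Fintype.card (Fin (2 * m)) *
        (((univ : Finset (SimpleGraph (Fin (2 * m)))).filter fun G => Cubic G ∧ C4 G).card : ℝ) := by
    have e : ((prs (Pt (Fin (2 * m)))).filter fun σ => Simp σ ∧ C4 (gr σ)).card =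
      6 ^ Fintype.card (Fin (2 * m)) *
        ((univ : Finset (SimpleGraph (Fin (2 * m)))).filter fun G => Cubic G ∧ C4 G).card := by
      refine Eq.trans (congrArg Finset.card ?_) (g1.trans (congrArg (fun k =>
        6 ^ Fintype.card (Fin (2 * m)) * Finset.card k) ?_))
      · ext σ
        simp
      · ext G
        simp
    exact_mod_cast e
  have g2' : ((((prs (Pt (Fin (2 * m)))).filter fun σ => Simp σ ∧ Q (gr σ)).card : ℕ) : ℝ) =
      6 ^ Fintype.card (Fin (2 * m)) *
        (((univ : Finset (SimpleGraph (Fin (2 * m)))).filter fun G => Cubic G ∧ Q G).card : ℝ) := by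
    have e : ((prs (Pt (Fin (2 * m)))).filter fun σ => Simp σ ∧ Q (gr σ)).card =
      6 ^ Fintype.card (Fin (2 * m)) *
        ((univ : Finset (SimpleGraph (Fin (2 * m)))).filter fun G => Cubic G ∧ Q G).card := by
      refine Eq.trans (congrArg Finset.card ?_) (g2.trans (congrArg (fun k =>
        6 ^ Fintype.card (Fin (2 * m)) * Finset.card k) ?_))
      · ext σ
        simp
      · ext G
        simp
    exact_mod_cast e
  have h6 : (0 : ℝ) < 6 ^ Fintype.card (Fin (2 * m)) := by positivity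
  have hsub' : ((((prs (Pt (Fin (2 * m)))).filter fun σ => Simp σ ∧ Q (gr σ)).card : ℕ) : ℝ) ≤
      (((prs (Pt (Fin (2 * m)))).filter fun σ => (Y σ : ℝ) < (64 / 25) ^ m ∧ Simp σ).card : ℝ) := by
    exact_mod_cast hsub
  constructor
  · have : (0 : ℝ) < 6 ^ Fintype.card (Fin (2 * m)) *
        (((univ : Finset (SimpleGraph (Fin (2 * m)))).filter fun G => Cubic G ∧ C4 G).card : ℝ) := by
      rw [← g1']; exact lt_of_lt_of_le (mul_pos hc hII) hc1
    have h0 := pos_of_mul_pos_right this h6.le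
    exact_mod_cast h0
  · have key : (6 : ℝ) ^ Fintype.card (Fin (2 * m)) *
        (((univ : Finset (SimpleGraph (Fin (2 * m)))).filter fun G => Cubic G ∧ Q G).card : ℝ) ≤
        6 ^ Fintype.card (Fin (2 * m)) * (ε *
        (((univ : Finset (SimpleGraph (Fin (2 * m)))).filter fun G => Cubic G ∧ C4 G).card : ℝ)) := by
      rw [← g2', mul_left_comm, ← g1']
      calc _ ≤ _ := hsub'
        _ ≤ ε * c * (II (3 * m) : ℝ) := hp1.le
        _ = ε * (c * (II (3 * m) : ℝ)) := by ring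
        _ ≤ _ := mul_le_mul_of_nonneg_left hc1 hε.le
    exact le_of_mul_le_mul_left key h6

end Pool.Agent.ALM
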