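import Pool.Agent.Lib.MP_fc2a59_co.ALM.M.Stm

set_option autoImplicit false

namespace Pool.Agent.ALM

open Finset
open scoped Classical

namespace grX

variable {V : Type}

/-- the pairing defined by numberings of the neighbours -/
def F (G : SimpleGraph V) (e : ∀ v, Fin 3 ≃ G.neighborSet v) (x : Pt V) : Pt V :=
  ((e x.1 x.2).1, (e (e x.1 x.2).1).symm ⟨x.1, SimpleGraph.Adj.symm (e x.1 x.2).2⟩)

theorem aux (G : SimpleGraph V) (e : ∀ v, Fin 3 ≃ G.neighborSet v) (u v w : V) (h : w = v)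
    (hw : u ∈ G.neighborSet w) (hv : u ∈ G.neighborSet v) :
    (e w).symm ⟨u, hw⟩ = (e v).symm ⟨u, hv⟩ := by
  subst h; rfl

theorem F_pr (G : SimpleGraph V) (e : ∀ v, Fin 3 ≃ G.neighborSet v) : IsPr (F G e) := by
  rintro ⟨v, i⟩
  constructor
  · have h1 : e (e v i).1 ((e (e v i).1).symm ⟨v, SimpleGraph.Adj.symm (e v i).2⟩) = ⟨v, SimpleGraph.Adj.symm (e v i).2⟩ :=
      Equiv.apply_symm_apply _ _
    have h2 : (e (e v i).1 ((e (e v i).1).symm ⟨v, SimpleGraph.Adj.symm (e v i).2⟩)).1 = v := by rw [h1]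
    refine Prod.ext ?_ ?_
    · exact h2
    · show (e (e (e v i).1 ((e (e v i).1).symm ⟨v, SimpleGraph.Adj.symm (e v i).2⟩)).1).symm ⟨(e v i).1, _⟩ = i
      rw [aux G e _ v _ h2 _ (e v i).2]
      exact Equiv.symm_apply_apply _ _
  · intro h
    have h1 : (e v i).1 = v := congrArg Prod.fst h
    have h2 : G.Adj v (e v i).1 := (e v i).2
    rw [h1] at h2
    exact G.loopless.irrefl v h2

theorem F_simp (G : SimpleGraph V) (e : ∀ v, Fin 3 ≃ G.neighborSet v) : Simp (F G e) := by
  constructor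
  · intro v i h
    have h1 : (e v i).1 = v := h
    have h2 : G.Adj v (e v i).1 := (e v i).2
    rw [h1] at h2
    exact G.loopless.irrefl v h2
  · intro u i j h
    exact (e u).injective (Subtype.ext h)

theorem F_gr (G : SimpleGraph V) (e : ∀ v, Fin 3 ≃ G.neighborSet v) : gr (F G e) = G := by
  ext u v
  simp only [gr, SimpleGraph.fromRel_adj]
  constructor
  · rintro ⟨-, ⟨i, h⟩ | ⟨i, h⟩⟩
    · have h2 : G.Adj u (e u i).1 := (e u i).2
      have h1 : (e u i).1 = v := h
      rwa [h1] at h2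
    · have h2 : G.Adj v (e v i).1 := (e v i).2
      have h1 : (e v i).1 = u := h
      rw [h1] at h2
      exact h2.symm
  · intro h
    refine ⟨G.ne_of_adj h, Or.inl ⟨(e u).symm ⟨v, h⟩, ?_⟩⟩
    show (e u ((e u).symm ⟨v, h⟩)).1 = v
    rw [Equiv.apply_symm_apply]

theorem F_inj (G : SimpleGraph V) : Function.Injective (F G) := by
  intro e e' h
  funext v
  ext i
  exact congrArg Prod.fst (congrFun h (v, i))

theorem exists_e {σ : Pt V → Pt V} (hp : IsPr σ) (hs : Simp σ) :
    ∃ e : ∀ v, Fin 3 ≃ (gr σ).neighborSet v, F (gr σ) e = σ := by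
  have hm : ∀ v i, (σ (v, i)).1 ∈ (gr σ).neighborSet v := by
    intro v i
    simp only [gr, SimpleGraph.mem_neighborSet, SimpleGraph.fromRel_adj]
    exact ⟨fun h => hs.1 v i h.symm, Or.inl ⟨i, rfl⟩⟩
  have hb : ∀ v, Function.Bijective (fun i : Fin 3 => (⟨(σ (v, i)).1, hm v i⟩ :
      (gr σ).neighborSet v)) := by
    intro v
    constructor
    · intro i j h
      exact hs.2 v i j (congrArg Subtype.val h)
    · rintro ⟨u, hu⟩
      simp only [gr, SimpleGraph.mem_neighborSet, SimpleGraph.fromRel_adj] at hu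
      obtain ⟨-, ⟨i, h⟩ | ⟨i, h⟩⟩ := hu
      · exact ⟨i, Subtype.ext h⟩
      · refine ⟨(σ (u, i)).2, Subtype.ext ?_⟩
        show (σ (v, (σ (u, i)).2)).1 = u
        have h1 : (v, (σ (u, i)).2) = σ (u, i) := Prod.ext h.symm rfl
        rw [h1, (hp _).1]
  refine ⟨fun v => Equiv.ofBijective _ (hb v), ?_⟩
  funext x
  obtain ⟨v, i⟩ := x
  refine Prod.ext rfl ?_
  show (Equiv.ofBijective _ (hb (σ (v, i)).1)).symm ⟨v, _⟩ = (σ (v, i)).2
  rw [Equiv.symm_apply_eq]
  apply Subtype.ext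
  show v = (σ ((σ (v, i)).1, (σ (v, i)).2)).1
  rw [Prod.mk.eta, (hp _).1]

end grX

open grX

theorem p_gr : S_gr := by
  intro V _ Q
  rw [Finset.card_eq_sum_card_fiberwise (f := gr)
    (t := (univ : Finset (SimpleGraph V)).filter fun G => Cubic G ∧ Q G)]
  · rw [Finset.sum_congr rfl (g := fun _ => 6 ^ Fintype.card V), Finset.sum_const, smul_eq_mul,
      mul_comm]
    intro G hG
    rw [Finset.mem_filter] at hG
    obtain ⟨-, hc, hQ⟩ := hG
    have h1 : (((prs (Pt V)).filter fun σ => Simp σ ∧ Q (gr σ)).filter fun σ => gr σ = G) =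
        (univ : Finset (∀ v, Fin 3 ≃ G.neighborSet v)).image (F G) := by
      ext σ
      simp only [Finset.mem_filter, prs, Finset.mem_univ, true_and, Finset.mem_image]
      constructor
      · rintro ⟨⟨hp, hs, -⟩, rfl⟩
        exact exists_e hp hs
      · rintro ⟨e, rfl⟩
        exact ⟨⟨F_pr G e, F_simp G e, by rw [F_gr]; exact hQ⟩, F_gr G e⟩
    rw [h1, Finset.card_image_of_injective _ (F_inj G), Finset.card_univ, Fintype.card_pi]
    have h2 : ∀ v : V, Fintype.card (Fin 3 ≃ G.neighborSet v) = 6 := by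
      intro v
      have h3 : Fintype.card (G.neighborSet v) = 3 := by
        rw [SimpleGraph.card_neighborSet_eq_degree]; exact hc v
      have h4 : Nonempty (Fin 3 ≃ G.neighborSet v) :=
        ⟨(Fintype.equivFinOfCardEq h3).symm⟩
      rw [Fintype.card_equiv h4.some]
      simp [Nat.factorial]
    simp only [h2, Finset.prod_const, Finset.card_univ]
  · intro σ hσ
    simp only [Finset.coe_filter, prs, Finset.mem_univ, true_and, Set.mem_ofPred_eq,
      Finset.mem_filter] at hσ ⊢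
    obtain ⟨hp, hs, hQ⟩ := hσ
    refine ⟨?_, hQ⟩
    intro v
    obtain ⟨e, -⟩ := exists_e hp hs
    rw [← SimpleGraph.card_neighborSet_eq_degree, ← Fintype.card_congr (e v), Fintype.card_fin]

end Pool.Agent.ALM
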